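import Pool.Agent.N179.FO.Step
import Pool.Agent.N179.FG.Fin

/-!
# The Tate conjecture for the products of K3 surfaces with arbitrary varieties, and for their open
# subvarieties
-/

set_option autoImplicit false
set_option linter.unusedSectionVars false

open CategoryTheory AlgebraicGeometry NumberField
open scoped TensorProduct

universe u v w

namespace Pool.Agent.N179.FO

open Pool.Agent.H914 Pool.Agent.H914.VarClass Pool.Agent.H914.VarClass.Obj
  Pool.Agent.H914.WeilCohomology Pool.Agent.H281R3.HT Pool.Agent.TH125.Gal Pool.Agent.N179.TL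
  Pool.Agent.N179.FG Pool.Agent.W552 Pool.Agent.TH121.KT Pool.Agent.W517.K3

variable {k : Type u} [Field k] {𝒱 : VarClass k} {ops : CycleOps 𝒱}
  {W : WeilCohomology.{u, v} ops} {Γ : Type w} [Group Γ] {χ : Γ →* W.Kˣ}
  {F : Γ} {p m : ℕ} [Fact p.Prime]

/-- the action on `H(V) ⊗ H(U)` -/
noncomputable def sig (V : GVar W Γ) (U : AnyVar W Γ) :
    Γ →* (W.H V.X ⊗[W.K] U.M →ₗ[W.K] W.H V.X ⊗[W.K] U.M) where
  toFun := tact V.act U.act
  map_one' := by
    refine TensorProduct.ext' fun a m => ?_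
    unfold tact
    rw [TensorProduct.map_tmul, map_one, map_one]
    rfl
  map_mul' g h := by
    refine TensorProduct.ext' fun a m => ?_
    unfold tact
    rw [TensorProduct.map_tmul, map_mul, map_mul]
    rfl

section step

variable {X Y : GVar W Γ} {U : AnyVar W Γ}
  {υ : Γ →* (W.H (X.X.prod Y.X) ≃ₐ[W.K] W.H (X.X.prod Y.X))}
  {E : Type} [Field E] [NumberField E] {α : E} {h b n : ℕ}

theorem contract [IsAlgClosed W.K] (hX : HasK3Reduction χ F p m X α h b n)
    (h1 : Intertwines (W.map (fst X.X Y.X)) X.act υ)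
    (h2 : Intertwines (W.map (snd X.X Y.X)) Y.act υ)
    (hno : ∀ (μ ν : W.K) (j : ℕ), (∃ x ∈ transcendental W X.X, IsEig X.act F μ x) →
      Module.End.HasEigenvalue (tact Y.act U.act F) ν → RootEq (μ * ν) ((χ F : W.K) ^ j) →
        ∃ D : ℕ, RootEq μ (((p : W.K) ^ m) ^ D))
    {j : ℕ} {R : Submodule W.K (W.H (X.X.prod Y.X) ⊗[W.K] U.M)}
    (hR : ∀ z ∈ R, ∀ ψ : Module.Dual W.K (W.H Y.X ⊗[W.K] U.M),
      pT hX.homEqNum (ctrN ψ (theta W X.X Y.X U.M z)) = 0)
    {c : W.H (X.X.prod Y.X) ⊗[W.K] U.M} {Δ : Subgroup Γ} (hΔ : Δ.FiniteIndex)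
    (hc : ∀ g ∈ Δ, tact υ U.act g c - (χ g : W.K) ^ j • c ∈ R)
    (ψ : Module.Dual W.K (W.H Y.X ⊗[W.K] U.M)) :
    pT hX.homEqNum (ctrN ψ (theta W X.X Y.X U.M c)) = 0 := by
  refine split_mod hX (sig Y U) hno hΔ (j := j) (fun g hg φ => ?_) ψ
  have h3 : TensorProduct.map (X.act g).toLinearMap (sig Y U g) (theta W X.X Y.X U.M c) -
      (χ g : W.K) ^ j • theta W X.X Y.X U.M c =
      theta W X.X Y.X U.M (tact υ U.act g c - (χ g : W.K) ^ j • c) := by
    rw [map_sub, map_smul, theta_act h1 h2]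
    rfl
  rw [h3]
  exact hR _ (hc g hg) φ

/-- **One step.** -/
theorem step [IsAlgClosed W.K] (hX : HasK3Reduction χ F p m X α h b n)
    (h1 : Intertwines (W.map (fst X.X Y.X)) X.act υ)
    (h2 : Intertwines (W.map (snd X.X Y.X)) Y.act υ)
    (hno : ∀ (μ ν : W.K) (j : ℕ), (∃ x ∈ transcendental W X.X, IsEig X.act F μ x) →
      Module.End.HasEigenvalue (tact Y.act U.act F) ν → RootEq (μ * ν) ((χ F : W.K) ^ j) →
        ∃ D : ℕ, RootEq μ (((p : W.K) ^ m) ^ D))
    {R : ℕ → Submodule W.K (W.H (X.X.prod Y.X) ⊗[W.K] U.M)}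
    {R' : ℕ → Submodule W.K (W.H Y.X ⊗[W.K] U.M)}
    (hR : ∀ j, ∀ z ∈ R j, ∀ ψ : Module.Dual W.K (W.H Y.X ⊗[W.K] U.M),
      pT hX.homEqNum (ctrN ψ (theta W X.X Y.X U.M z)) = 0)
    (hR' : ∀ (s : SB W X.X) (l : Fin s.NC) (j : ℕ), s.jC l ≤ j → ∀ z ∈ R j,
      KM s Y.X U.M (Sum.inl l) z ∈ R' (j - s.jC l))
    (hT : TateAct χ (W.gr Y.X) U.gr Y.act U.act R' (U.cyc Y.X)) :
    TateAct χ (W.gr (X.X.prod Y.X)) U.gr υ U.act R (U.cyc (X.X.prod Y.X)) := by
  have hG : IsGalois W χ X.X X.act := isGalois hX.galois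
  obtain ⟨s⟩ := exists_SB hX.homEqNum
  obtain ⟨Δ', hΔ', hfix⟩ := exists_fix hG s
  rintro j c hcj ⟨Δ, hΔ, hc⟩
  have hK := contract hX h1 h2 hno (hR j) hΔ hc
  rw [expandM s c, Fintype.sum_sum_type]
  refine Submodule.add_mem _ (Submodule.sum_mem _ fun l _ => ?_)
    (Submodule.sum_mem _ fun i _ => ?_)
  swap
  · rw [KM_inr hX.homEqNum s i hK, map_zero, map_zero]
    exact Submodule.zero_mem _
  have hdeg := KM_deg s l hcj
  by_cases hjl : s.jC l ≤ j
  · rw [if_pos (by omega), show 2 * j - 2 * s.jC l = 2 * (j - s.jC l) by omega] at hdeg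
    have hx : KM s Y.X U.M (Sum.inl l) c ∈ U.cyc Y.X (j - s.jC l) := by
      refine hT _ _ hdeg ⟨Δ ⊓ Δ', inferInstance, fun g hg => ?_⟩
      have h3 := hR' s l j hjl _ (hc g hg.1)
      rw [map_sub, map_smul, KM_act hG h1 h2 s l (hfix g hg.2)] at h3
      have h4 : (χ g : W.K) ^ j = (χ g : W.K) ^ s.jC l * (χ g : W.K) ^ (j - s.jC l) := by
        rw [← pow_add, Nat.add_sub_cancel' hjl]
      rw [h4, mul_smul] at h3
      refine (Submodule.smul_mem_iff _ (pow_ne_zero (s.jC l) (Units.ne_zero (χ g)))).1 ?_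
      rw [smul_sub]
      exact h3
    have h5 := mul_span (U := U) (map_span (fst X.X Y.X) (Submodule.subset_span (s.alg l)))
      (U.pull (snd X.X Y.X) _ _ hx)
    rw [Nat.add_sub_cancel' hjl] at h5
    rw [s.e_inl]
    exact h5
  · rw [if_neg (by omega), Submodule.mem_bot] at hdeg
    rw [hdeg, map_zero, map_zero]
    exact Submodule.zero_mem _

theorem push_mul_snd (a : W.H X.X) (c : W.H Y.X ⊗[W.K] U.M) :
    (W.push (snd X.X Y.X)).rTensor U.M ((LinearMap.mulLeft W.K (W.map (fst X.X Y.X) a)).rTensor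
      U.M ((W.map (snd X.X Y.X)).toLinearMap.rTensor U.M c)) = W.tr X.X a • c := by
  induction c using TensorProduct.induction_on with
  | zero => simp
  | tmul y m =>
    rw [LinearMap.rTensor_tmul, LinearMap.rTensor_tmul, LinearMap.rTensor_tmul]
    change W.push (snd X.X Y.X) (W.map (fst X.X Y.X) a * W.map (snd X.X Y.X) y) ⊗ₜ m = _
    rw [W.push_snd, TensorProduct.smul_tmul']
  | add x y hx hy => rw [map_add, map_add, map_add, hx, hy, smul_add]

theorem snd_act (h2 : Intertwines (W.map (snd X.X Y.X)) Y.act υ) (g : Γ)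
    (c : W.H Y.X ⊗[W.K] U.M) :
    tact υ U.act g ((W.map (snd X.X Y.X)).toLinearMap.rTensor U.M c) =
      (W.map (snd X.X Y.X)).toLinearMap.rTensor U.M (tact Y.act U.act g c) := by
  induction c using TensorProduct.induction_on with
  | zero => simp
  | tmul y m =>
    unfold tact
    rw [LinearMap.rTensor_tmul, TensorProduct.map_tmul, TensorProduct.map_tmul,
      LinearMap.rTensor_tmul]
    change υ g (W.map (snd X.X Y.X) y) ⊗ₜ U.act g m = _
    rw [h2 g]
    rfl
  | add x y hx hy => rw [map_add, map_add, map_add, map_add, hx, hy]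

/-- The converse. -/
theorem conv (hDX : HomEqNum W X.X) (hone : (1 : W.H X.X) ≠ 0)
    (h2 : Intertwines (W.map (snd X.X Y.X)) Y.act υ)
    {R : ℕ → Submodule W.K (W.H (X.X.prod Y.X) ⊗[W.K] U.M)}
    {R' : ℕ → Submodule W.K (W.H Y.X ⊗[W.K] U.M)}
    (hR : ∀ j, ∀ z ∈ R' j, (W.map (snd X.X Y.X)).toLinearMap.rTensor U.M z ∈ R j)
    (hT : TateAct χ (W.gr (X.X.prod Y.X)) U.gr υ U.act R (U.cyc (X.X.prod Y.X))) :
    TateAct χ (W.gr Y.X) U.gr Y.act U.act R' (U.cyc Y.X) := by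
  rintro j c hcj ⟨Δ, hΔ, hc⟩
  have h3 : (W.map (snd X.X Y.X)).toLinearMap.rTensor U.M c ∈
      tensDeg (W.gr (X.X.prod Y.X)) U.gr (2 * j) := by
    clear hc
    induction hcj using Submodule.span_induction with
    | mem c hc =>
      obtain ⟨a, b, hab, x, hx, y, hy, rfl⟩ := hc
      rw [LinearMap.rTensor_tmul]
      exact Submodule.subset_span ⟨a, b, hab, _, W.map_mem _ hx, y, hy, rfl⟩
    | zero => rw [map_zero]; exact Submodule.zero_mem _
    | add x y _ _ hx hy => rw [map_add]; exact Submodule.add_mem _ hx hy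
    | smul q x _ hx => rw [map_smul]; exact Submodule.smul_mem _ _ hx
  have h4 := hT j _ h3 ⟨Δ, hΔ, fun g hg => by
    rw [snd_act h2, ← map_smul, ← map_sub]
    exact hR j _ (hc g hg)⟩
  obtain ⟨a, ha, ha0⟩ := exists_pt hDX hone
  have h5 := U.push X.X Y.X j _ (U.mul _ _ _ _ (alg_map (fst X.X Y.X) ha) _ h4)
  rw [push_mul_snd] at h5
  exact (Submodule.smul_mem_iff _ ha0).1 h5

theorem defined_snd (hDX : HomEqNum W X.X) (hone : (1 : W.H X.X) ≠ 0)
    (h2 : Intertwines (W.map (snd X.X Y.X)) Y.act υ)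
    (hd : CyclesDefined χ (⟨X.X.prod Y.X, υ⟩ : GVar W Γ) U) : CyclesDefined χ Y U := by
  intro j c hc
  obtain ⟨Δ, hΔ, h3⟩ := hd j _ (U.pull (snd X.X Y.X) _ _ hc)
  obtain ⟨a, -, ha0⟩ := exists_pt hDX hone
  refine ⟨Δ, hΔ, fun g hg => ?_⟩
  have h4 := h3 g hg
  change tact υ U.act g _ = _ at h4
  rw [snd_act h2, ← map_smul] at h4
  have h5 := congrArg (fun z => (W.push (snd X.X Y.X)).rTensor U.M ((LinearMap.mulLeft W.K
    (W.map (fst X.X Y.X) a)).rTensor U.M z)) h4
  beta_reduce at h5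
  rw [push_mul_snd, push_mul_snd] at h5
  exact smul_right_injective _ ha0 h5

end step

theorem theta_inj (X Y : 𝒱.Obj) (M : Type v) [AddCommGroup M] [Module W.K M] :
    Function.Injective (theta W X Y M) := by
  have h1 : Function.Injective ((kEquiv W X Y).symm.toLinearMap.rTensor M) :=
    (LinearEquiv.rTensor M (kEquiv W X Y).symm).injective
  exact (TensorProduct.assoc W.K (W.H X) (W.H Y) M).injective.comp h1

section tower

variable {r : ℕ} {E : Fin r → Type} [∀ i, Field (E i)] [∀ i, NumberField (E i)]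
  [∀ i, IsCMField (E i)] {α : ∀ i, E i} {h b n : Fin r → ℕ} {X : Fin r → GVar W Γ} {Z : GVar W Γ}
  {G : Set ℚ} {U : AnyVar W Γ}

theorem tower_eigM [IsAlgClosed W.K] (hχ : (χ F : W.K) = (p : W.K) ^ m)
    (hX : ∀ i, HasK3Reduction χ F p m (X i) (α i) (h i) (b i) (n i))
    (hU : SlopesTimes F p m G Z U)
    {S : Finset (Fin r)} {Y : GVar W Γ} (hY : Tower X Z S Y) {ν : W.K}
    (hν : Module.End.HasEigenvalue (tact Y.act U.act F) ν) : IsWord p m G α n S ν := by
  classical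
  induction hY generalizing ν with
  | base =>
    refine ⟨fun _ _ => 0, 0, ν, fun _ _ _ => rfl, fun i => by simp, hU ν hν, ?_⟩
    have h1 : letterProd α (fun _ => 1) (fun i (_ : E i →+* W.K) => 0) = (1 : W.K) := by
      unfold letterProd
      simp
    rw [h1, mul_zero, pow_zero, one_mul, one_mul]
    exact RootEq.refl ν
  | @step S Y i υ hY hi h1 h2 ih =>
    obtain ⟨c, hc, hc0⟩ := hν.exists_hasEigenvector
    have hc1 : tact υ U.act F c = ν • c := Module.End.mem_eigenspace_iff.1 hc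
    have h3 : Module.End.HasEigenvalue (TensorProduct.map ((X i).act F).toLinearMap
        (tact Y.act U.act F) : Module.End W.K (W.H (X i).X ⊗[W.K] (W.H Y.X ⊗[W.K] U.M))) ν := by
      refine Module.End.hasEigenvalue_of_hasEigenvector (x := theta W (X i).X Y.X U.M c)
        ⟨Module.End.mem_eigenspace_iff.2 ?_, fun h => hc0 ?_⟩
      · rw [← theta_act h1 h2, hc1, map_smul]
      · exact theta_inj _ _ _ (h.trans (map_zero _).symm)
    obtain ⟨μ, μ', hμ, hμ', rfl⟩ := eig_tensor ((X i).act F).injective h3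
    obtain ⟨N', D', ν₁, h3, h4, h5, h6⟩ := ih hμ'
    obtain ⟨D, N₀, h0, h7⟩ := eig_K3 hχ (hX i) hμ
    refine ⟨fun j σ => N' j σ + (Pi.single i N₀ : ∀ i, (E i →+* W.K) → ℕ) j σ, D + D', ν₁, ?_,
      sum_single N' (h3 i hi) h4 h0, h5, ?_⟩
    · intro j hj σ
      rw [Finset.mem_insert, not_or] at hj
      beta_reduce
      rw [h3 j hj.2 σ, Pi.single_eq_of_ne hj.1]
      rfl
    · have h8 := h7.mul h6
      rw [HT.letterProd_add, letterProd_word, mul_add, pow_add]
      convert h8 using 1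
      ring

theorem hno_tower [IsAlgClosed W.K] (hm : 0 < m) (hχ : (χ F : W.K) = (p : W.K) ^ m)
    (hX : ∀ i, HasK3Reduction χ F p m (X i) (α i) (h i) (b i) (n i))
    (hA : Admissible G h b (fun i => Module.finrank ℚ (E i) / 2)
      (fun i => localDegree p (α i)) n) (hU : SlopesTimes F p m G Z U)
    {S : Finset (Fin r)} {Y : GVar W Γ} (hY : Tower X Z S Y) {i : Fin r} (hi : i ∉ S)
    (μ ν : W.K) (j : ℕ) (hμ : ∃ x ∈ transcendental W (X i).X, IsEig (X i).act F μ x)
    (hν : Module.End.HasEigenvalue (tact Y.act U.act F) ν)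
    (hrel : RootEq (μ * ν) ((χ F : W.K) ^ j)) : ∃ D : ℕ, RootEq μ (((p : W.K) ^ m) ^ D) := by
  obtain ⟨x, hx, hx1⟩ := hμ
  obtain ⟨D, N₀, h0, h3⟩ := (hX i).act.eigen μ x hx hx1
  rw [← pow_mul] at h3
  have h4 := no_rel hm hχ hX hA hi (tower_eigM hχ hX hU hY hν) D h0 j
    ((h3.symm.mul (RootEq.refl ν)).trans hrel)
  refine ⟨D, ?_⟩
  have h5 := h3.trans ((RootEq.refl ((p : W.K) ^ (m * D))).mul h4)
  rwa [mul_one, pow_mul] at h5

/-- **The Tate conjecture for the products with an arbitrary variety.** -/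
theorem tower_times [IsAlgClosed W.K] (hm : 0 < m) (hχ : (χ F : W.K) = (p : W.K) ^ m)
    (hX : ∀ i, HasK3Reduction χ F p m (X i) (α i) (h i) (b i) (n i))
    (hA : Admissible G h b (fun i => Module.finrank ℚ (E i) / 2)
      (fun i => localDegree p (α i)) n) (hU : SlopesTimes F p m G Z U)
    {S : Finset (Fin r)} {Y : GVar W Γ} (hY : Tower X Z S Y) :
    TateTimes χ Y U ↔ TateTimes χ Z U := by
  induction hY with
  | base => exact Iff.rfl
  | @step S Y i υ hY hi h1 h2 ih =>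
    rw [← ih]
    refine ⟨conv (hX i).homEqNum (hX i).one_ne h2 fun j z hz => ?_,
      step (hX i) h1 h2 (hno_tower hm hχ hX hA hU hY hi) (fun j z hz ψ => ?_)
        fun s l j _ z hz => ?_⟩
    · rw [(Submodule.mem_bot _).1 hz, map_zero]
      exact Submodule.zero_mem _
    · rw [(Submodule.mem_bot _).1 hz, map_zero, map_zero, map_zero]
    · rw [(Submodule.mem_bot _).1 hz, map_zero]
      exact Submodule.zero_mem _

/-- **The Tate conjecture for the open subvarieties.** -/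
theorem tower_opens [IsAlgClosed W.K] (hm : 0 < m) (hχ : (χ F : W.K) = (p : W.K) ^ m)
    (hX : ∀ i, HasK3Reduction χ F p m (X i) (α i) (h i) (b i) (n i))
    (hA : Admissible G h b (fun i => Module.finrank ℚ (E i) / 2)
      (fun i => localDegree p (α i)) n) (hU : SlopesTimes F p m G Z U)
    {S : Finset (Fin r)} {Y : GVar W Γ} (hY : Tower X Z S Y) (hd : CyclesDefined χ Y U) :
    TateOpens χ Y U ↔ TateOpens χ Z U := by
  induction hY with
  | base => exact Iff.rfl
  | @step S Y i υ hY hi h1 h2 ih =>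
    rw [← ih (defined_snd (hX i).homEqNum (hX i).one_ne h2 hd)]
    have hno := hno_tower hm hχ hX hA hU hY hi
    refine ⟨conv (hX i).homEqNum (hX i).one_ne h2 fun j z hz => U.pull _ _ _ hz,
      step (hX i) h1 h2 hno (fun j z hz ψ => ?_) fun s l j hjl z hz => KM_cyc s l hjl hz⟩
    obtain ⟨Δ, hΔ, h3⟩ := hd j z hz
    refine contract (hX i) h1 h2 hno (R := ⊥) (j := j) (fun z hz ψ => ?_) hΔ (fun g hg => ?_) ψ

    · rw [(Submodule.mem_bot _).1 hz, map_zero, map_zero, map_zero]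
    · rw [Submodule.mem_bot, sub_eq_zero]
      exact h3 g hg

end tower

end Pool.Agent.N179.FO
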