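import Pool.Agent.N179.FG.Defs

/-!
# The Tate conjecture for products with arbitrary varieties and for their open subvarieties:
# definitions
-/

set_option autoImplicit false

open CategoryTheory AlgebraicGeometry TensorProduct

universe u v w

namespace Pool.Agent.N179.FO

section Alg

/-- The linear actions of the group `Γ` on the vector space `M`. -/
abbrev LinAct (K : Type v) [Field K] (M : Type v) [AddCommGroup M] [Module K M] (Γ : Type w)
    [Group Γ] : Type (max v w) := Γ →* (M →ₗ[K] M)

/-- The families of subspaces of `A ⊗ M`, indexed by natural numbers. -/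
abbrev Subs (K : Type v) [Field K] (A : Type v) [Ring A] [Algebra K A] (M : Type v)
    [AddCommGroup M] [Module K M] : Type v := ℕ → Submodule K (A ⊗[K] M)

variable {K : Type v} [Field K] {A : Type v} [Ring A] [Algebra K A] {B : Type v} [Ring B]
  [Algebra K B] {M : Type v} [AddCommGroup M] [Module K M] {Γ : Type w} [Group Γ]

/-- The part of degree `i` of the tensor product. -/
def tensDeg (grA : ℕ → Submodule K A) (grM : ℕ → Submodule K M) (i : ℕ) :
    Submodule K (A ⊗[K] M) :=
  Submodule.span K {c | ∃ a b, a + b = i ∧ ∃ x ∈ grA a, ∃ y ∈ grM b, c = x ⊗ₜ[K] y}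

/-- The action of `g` on the tensor product. -/
noncomputable def tact (ρ : Γ →* (A ≃ₐ[K] A)) (τ : LinAct K M Γ) (g : Γ) :
    A ⊗[K] M →ₗ[K] A ⊗[K] M :=
  TensorProduct.map (ρ g).toLinearMap (τ g)

/-- The group `Γ` acts on `A` by `ρ` and on `M` by `τ`. All elements `c` of `A ⊗ M` of degree
`2 * j` such that `g c - χ g ^ j • c` is in `R j` for all `g` in a subgroup of finite index are in
`C j`, for all `j`. -/
def TateAct (χ : Γ →* Kˣ) (grA : ℕ → Submodule K A) (grM : ℕ → Submodule K M)
    (ρ : Γ →* (A ≃ₐ[K] A)) (τ : LinAct K M Γ) (R C : Subs K A M) : Prop :=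
  ∀ j, ∀ c ∈ tensDeg grA grM (2 * j), (∃ Δ : Subgroup Γ, Δ.FiniteIndex ∧
    ∀ g ∈ Δ, tact ρ τ g c - (χ g : K) ^ j • c ∈ R j) → c ∈ C j

/-- All elements `c` of `A ⊗ M` of degree `2 * j` such that `g c = χ g ^ j • c` for all `g` in a
subgroup of finite index are in `C j`, for all `j`. -/
def TateInv (χ : Γ →* Kˣ) (grA : ℕ → Submodule K A) (grM : ℕ → Submodule K M)
    (ρ : Γ →* (A ≃ₐ[K] A)) (τ : LinAct K M Γ) (C : Subs K A M) : Prop :=
  TateAct χ grA grM ρ τ (fun _ => ⊥) C

/-- The elements of `C j` are multiplied by `χ g ^ j` by all `g` in a subgroup of finite index. -/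
def DefinedAct (χ : Γ →* Kˣ) (ρ : Γ →* (A ≃ₐ[K] A)) (τ : LinAct K M Γ)
    (C : Subs K A M) : Prop :=
  ∀ j, ∀ c ∈ C j, ∃ Δ : Subgroup Γ, Δ.FiniteIndex ∧
    ∀ g ∈ Δ, tact ρ τ g c = (χ g : K) ^ j • c

/-- The eigenvalues of `F` on `A ⊗ M` are Weil numbers over the field with `p ^ m` elements, and
those of even weight `w` have slopes of the form `w / 2 + γ`, `γ ∈ G`. -/
def SlopesTens [CharZero K] (ρ : Γ →* (A ≃ₐ[K] A)) (τ : LinAct K M Γ) (F : Γ) (p m : ℕ)
    [Fact p.Prime] (G : Set ℚ) : Prop :=
  ∀ μ : K, Module.End.HasEigenvalue (tact ρ τ F) μ → Pool.Agent.N179.TL.HasSlopesIn p m G μ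

/-- The pull-back by `f` maps `C j` to `C' j`. -/
def PullStable (f : B →ₐ[K] A) (C : Subs K B M)
    (C' : Subs K A M) : Prop :=
  ∀ j, ∀ c ∈ C j, f.toLinearMap.rTensor M c ∈ C' j

/-- The push-forward by `q` maps `C (d + j)` to `C' j`. -/
def PushStable (q : A →ₗ[K] B) (d : ℕ) (C : Subs K A M)
    (C' : Subs K B M) : Prop :=
  ∀ j, ∀ c ∈ C (d + j), q.rTensor M c ∈ C' j

/-- The products of elements of `S i` and of `C j` are in `C (i + j)`. -/
def MulStable (S : ℕ → Set A) (C : Subs K A M) : Prop :=
  ∀ i j, ∀ a ∈ S i, ∀ c ∈ C j, (LinearMap.mulLeft K a).rTensor M c ∈ C (i + j)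

end Alg

open Pool.Agent.H914 Pool.Agent.H914.VarClass Pool.Agent.H914.VarClass.Obj
  Pool.Agent.H914.WeilCohomology Pool.Agent.H281R3.HT Pool.Agent.TH125.Gal Pool.Agent.N179.TL
  Pool.Agent.N179.FG Pool.Agent.W552

variable {k : Type u} [Field k] {𝒱 : VarClass k} {ops : CycleOps 𝒱}

/-- The cohomology `M` of a variety `U`, not necessarily proper, with its grading and an action of
the group `Γ`, and subspaces `cyc V j` of `H(V) ⊗ M = H(V × U)` for all `V` in `𝒱` (the spans of
the classes of the cycles of codimension `j` on `V × U`), compatible with pull-back by morphisms of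
the proper variety `V`, with the product with the classes of cycles on `V`, and with push-forward
along the projections `V × V' × U ⟶ V' × U`. -/
structure AnyVar (W : WeilCohomology.{u, v} ops) (Γ : Type w) [Group Γ] where
  /-- the cohomology of `U` -/
  M : Type v
  [grp : AddCommGroup M]
  [mod : Module W.K M]
  [fin : Module.Finite W.K M]
  /-- the grading -/
  gr : ℕ → Submodule W.K M
  /-- the action -/
  act : LinAct W.K M Γ
  /-- the combinations of the classes of the cycles of codimension `j` on `V × U` -/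
  cyc : ∀ V : 𝒱.Obj, Subs W.K (W.H V) M
  pull : ∀ {V V' : 𝒱.Obj} (f : V ⟶ V'), PullStable (W.map f) (cyc V') (cyc V)
  mul : ∀ V : 𝒱.Obj, MulStable (algClasses W V) (cyc V)
  push : ∀ V V' : 𝒱.Obj, PushStable (W.push (snd V V')) V.dim (cyc (V.prod V')) (cyc V')

attribute [instance] AnyVar.grp AnyVar.mod AnyVar.fin

variable {W : WeilCohomology.{u, v} ops} {Γ : Type w} [Group Γ]

/-- The Tate conjecture for `V × U`: all classes in `H^(2 j)(V × U)` which are multiplied by
`χ g ^ j` by all `g` in a subgroup of finite index are combinations of the classes of the cycles of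
codimension `j` on `V × U`, for all `j`. -/
def TateTimes (χ : Γ →* W.Kˣ) (V : GVar W Γ) (U : AnyVar W Γ) : Prop :=
  TateInv χ (W.gr V.X) U.gr V.act U.act (U.cyc V.X)

/-- The Tate conjecture for the open subvarieties of `V × U`: for all `j`, all classes `c` in
`H^(2 j)(V × U)` for which `g c - χ g ^ j • c` is a combination of the classes of cycles of codimension
`j`, for all `g` in a subgroup of finite index, are combinations of the classes of the cycles of
codimension `j` on `V × U`. -/
def TateOpens (χ : Γ →* W.Kˣ) (V : GVar W Γ) (U : AnyVar W Γ) : Prop :=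
  TateAct χ (W.gr V.X) U.gr V.act U.act (U.cyc V.X) (U.cyc V.X)

/-- The classes of cycles of codimension `j` on `V × U` are multiplied by `χ g ^ j` by the elements `g`
of a subgroup of finite index. -/
def CyclesDefined (χ : Γ →* W.Kˣ) (V : GVar W Γ) (U : AnyVar W Γ) : Prop :=
  DefinedAct χ V.act U.act (U.cyc V.X)

/-- The eigenvalues of `F` on `H(Z) ⊗ H(U)` are Weil numbers over the field with `p ^ m` elements, and
those of even weight `w` have slopes of the form `w / 2 + γ`, `γ ∈ G`. -/
def SlopesTimes (F : Γ) (p m : ℕ) [Fact p.Prime] (G : Set ℚ) (Z : GVar W Γ) (U : AnyVar W Γ) :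
    Prop :=
  SlopesTens Z.act U.act F p m G

end Pool.Agent.N179.FO
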