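import Pool.Agent.N179.FO.Defs
import Pool.Agent.N179.FG.Step

/-!
# Contractions of Tate classes on the product with a module
-/

set_option autoImplicit false
set_option linter.unusedSectionVars false

open CategoryTheory AlgebraicGeometry
open scoped TensorProduct

universe u v w

namespace Pool.Agent.N179.FO

open Pool.Agent.H914 Pool.Agent.H914.VarClass Pool.Agent.H914.VarClass.Obj
  Pool.Agent.H914.WeilCohomology Pool.Agent.H281R3.HT Pool.Agent.TH125.Gal Pool.Agent.N179.TL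
  Pool.Agent.N179.FG

variable {k : Type u} [Field k] {𝒱 : VarClass k} {ops : CycleOps 𝒱}
  {W : WeilCohomology.{u, v} ops}

/-- contraction with a linear form on the second factor -/
noncomputable def ctrN {X : 𝒱.Obj} {N : Type v} [AddCommGroup N] [Module W.K N]
    (φ : N →ₗ[W.K] W.K) : W.H X ⊗[W.K] N →ₗ[W.K] W.H X :=
  (TensorProduct.rid W.K (W.H X)).toLinearMap ∘ₗ (φ.lTensor (W.H X))

theorem ctrN_tmul {X : 𝒱.Obj} {N : Type v} [AddCommGroup N] [Module W.K N]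
    (φ : N →ₗ[W.K] W.K) (a : W.H X) (y : N) : ctrN φ (a ⊗ₜ[W.K] y) = φ y • a := by
  change TensorProduct.rid W.K (W.H X) (φ.lTensor (W.H X) (a ⊗ₜ[W.K] y)) = _
  rw [LinearMap.lTensor_tmul, TensorProduct.rid_tmul]

theorem ctrN_add {X : 𝒱.Obj} {N : Type v} [AddCommGroup N] [Module W.K N]
    (φ ψ : N →ₗ[W.K] W.K) (d : W.H X ⊗[W.K] N) : ctrN (φ + ψ) d = ctrN φ d + ctrN ψ d := by
  induction d using TensorProduct.induction_on with
  | zero => simp
  | tmul a y => rw [ctrN_tmul, ctrN_tmul, ctrN_tmul, LinearMap.add_apply, add_smul]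
  | add x y hx hy =>
    rw [map_add, map_add, map_add, hx, hy]
    abel

theorem ctrN_smul {X : 𝒱.Obj} {N : Type v} [AddCommGroup N] [Module W.K N]
    (r : W.K) (φ : N →ₗ[W.K] W.K) (d : W.H X ⊗[W.K] N) : ctrN (r • φ) d = r • ctrN φ d := by
  induction d using TensorProduct.induction_on with
  | zero => simp
  | tmul a y => rw [ctrN_tmul, ctrN_tmul, LinearMap.smul_apply, smul_eq_mul, mul_smul]
  | add x y hx hy => rw [map_add, map_add, hx, hy, smul_add]

theorem ctrN_map {X : 𝒱.Obj} {N : Type v} [AddCommGroup N] [Module W.K N]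
    (φ : N →ₗ[W.K] W.K) (f : Module.End W.K (W.H X)) (g : Module.End W.K N)
    (d : W.H X ⊗[W.K] N) : ctrN φ (TensorProduct.map f g d) = f (ctrN (φ ∘ₗ g) d) := by
  induction d using TensorProduct.induction_on with
  | zero => simp
  | tmul a y => rw [TensorProduct.map_tmul, ctrN_tmul, ctrN_tmul, map_smul]; rfl
  | add x y hx hy => rw [map_add, map_add, map_add, map_add, hx, hy]

section

variable {Γ : Type w} [Group Γ] {χ : Γ →* W.Kˣ} {X : GVar W Γ} {F : Γ} {p m : ℕ}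
  [Fact p.Prime] {E : Type} [Field E] [NumberField E] {α : E} {h b n : ℕ}
  {N : Type v} [AddCommGroup N] [Module W.K N] [Module.Finite W.K N]

/-- **The contractions of the Tate classes are algebraic.** -/
theorem split_mod [IsAlgClosed W.K] (hX : HasK3Reduction χ F p m X α h b n)
    (σ : Γ →* (N →ₗ[W.K] N))
    (hno : ∀ (μ ν : W.K) (j : ℕ), (∃ x ∈ transcendental W X.X, IsEig X.act F μ x) →
      Module.End.HasEigenvalue (σ F) ν → RootEq (μ * ν) ((χ F : W.K) ^ j) →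
        ∃ D : ℕ, RootEq μ (((p : W.K) ^ m) ^ D))
    {d : W.H X.X ⊗[W.K] N} {j : ℕ} {Δ : Subgroup Γ} (hΔ : Δ.FiniteIndex)
    (hd : ∀ g ∈ Δ, ∀ φ : Module.Dual W.K N, pT hX.homEqNum
      (ctrN φ (TensorProduct.map (X.act g).toLinearMap (σ g) d - (χ g : W.K) ^ j • d)) = 0)
    (φ : Module.Dual W.K N) : pT hX.homEqNum (ctrN φ d) = 0 := by
  classical
  have hG : IsGalois W χ X.X X.act := isGalois hX.galois
  have hDX := hX.homEqNum
  -- the map
  let Ψ : Module.Dual W.K N →ₗ[W.K] W.H X.X :=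
    { toFun := fun φ => pT hDX (ctrN φ d)
      map_add' := fun φ ψ => by rw [ctrN_add, map_add]
      map_smul' := fun r φ => by rw [ctrN_smul, map_smul]; rfl }
  have hΨ : ∀ φ, Ψ φ = pT hDX (ctrN φ d) := fun φ => rfl
  have hΨg : ∀ g ∈ Δ, ∀ φ : Module.Dual W.K N,
      (χ g : W.K) ^ j • Ψ φ = X.act g (Ψ (φ ∘ₗ σ g)) := by
    intro g hg φ
    have h1 := hd g hg φ
    rw [map_sub, map_sub, sub_eq_zero, map_smul, map_smul, ctrN_map] at h1
    rw [hΨ, hΨ, ← pT_act hDX hG]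
    exact h1.symm
  by_contra hcon
  have hU : LinearMap.range Ψ ≠ ⊥ := by
    intro h0
    apply hcon
    have h4 : Ψ φ ∈ LinearMap.range Ψ := ⟨φ, rfl⟩
    rw [h0] at h4
    exact (Submodule.mem_bot _).1 h4
  have hUT : LinearMap.range Ψ ≤ transcendental W X.X := by
    rintro _ ⟨φ, rfl⟩
    exact pT_mem hDX _
  have hσ : ∀ (g : Γ) (x : N), σ g⁻¹ (σ g x) = x := by
    intro g x
    rw [← Module.End.mul_apply, ← map_mul, inv_mul_cancel, map_one]
    rfl
  have hinv' : ∀ (g : Γ) (x : W.H X.X), X.act g⁻¹ (X.act g x) = x := by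
    intro g x
    have := act_inv X.act g⁻¹ x
    rwa [inv_inv] at this
  have hUst : ∀ g ∈ Δ, ∀ x ∈ LinearMap.range Ψ, X.act g x ∈ LinearMap.range Ψ := by
    rintro g hg _ ⟨φ, rfl⟩
    have h3 := hΨg g hg (φ ∘ₗ σ g⁻¹)
    have h4 : (φ ∘ₗ σ g⁻¹) ∘ₗ σ g = φ := by
      apply LinearMap.ext
      intro y
      change φ (σ g⁻¹ (σ g y)) = φ y
      rw [hσ]
    rw [h4] at h3
    rw [← h3]
    exact Submodule.smul_mem _ _ ⟨_, rfl⟩
  obtain ⟨s, hs, μ, x, ⟨φ₀, rfl⟩, ⟨hx0, hxμ⟩, hμ⟩ := hX.act.free Δ hΔ _ hUT hU hUst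
  -- the eigenvalue `μ`
  have hT1 : Module.End.HasEigenvalue ((rhoT hG F : Module.End W.K (transcendental W X.X)) ^ s)
      μ := by
    refine Module.End.hasEigenvalue_of_hasEigenvector (x := ⟨Ψ φ₀, hUT ⟨φ₀, rfl⟩⟩)
      ⟨Module.End.mem_eigenspace_iff.2 ?_, fun h => hx0 (congrArg Subtype.val h)⟩
    rw [← map_pow]
    apply Subtype.ext
    exact hxμ
  obtain ⟨μ₁, hμ₁, rfl⟩ := eig_pow hs hT1
  obtain ⟨x₁, hx₁, hx₁0⟩ := hμ₁.exists_hasEigenvector
  have hx₁' : X.act F (x₁ : W.H X.X) = μ₁ • (x₁ : W.H X.X) :=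
    congrArg Subtype.val (Module.End.mem_eigenspace_iff.1 hx₁)
  -- an element of `Δ`
  obtain ⟨t, ht, -, htΔ⟩ := Subgroup.exists_pow_mem_of_index_ne_zero hΔ.index_ne_zero F
  set G : Γ := F ^ (s * t) with hGdef
  have hGΔ : G ∈ Δ := by
    rw [hGdef, mul_comm, pow_mul]
    exact Subgroup.pow_mem _ htΔ _
  have hst : 0 < s * t := Nat.mul_pos hs ht
  have hμ₁0 : μ₁ ≠ 0 := by
    rintro rfl
    rw [zero_smul] at hx₁'
    apply hx₁0
    apply Subtype.ext
    exact (X.act F).injective (hx₁'.trans (map_zero _).symm)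
  have hpowact : ∀ (n : ℕ) (x : W.H X.X) (ν : W.K), X.act (F ^ s) x = ν • x →
      X.act (F ^ (s * n)) x = ν ^ n • x := by
    intro n x ν hx
    induction n with
    | zero => rw [mul_zero, pow_zero, map_one, pow_zero, one_smul]; rfl
    | succ n ih =>
      rw [mul_add, mul_one, pow_add, map_mul]
      change X.act (F ^ (s * n)) (X.act (F ^ s) x) = _
      rw [hx, map_smul, ih, smul_smul, pow_succ']
  have hGx : X.act G (Ψ φ₀) = (μ₁ ^ s) ^ t • Ψ φ₀ := hpowact t _ _ hxμ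
  set κ : W.K := (χ G : W.K) ^ j with hκ
  have hM0 : (μ₁ ^ s) ^ t ≠ 0 := pow_ne_zero _ (pow_ne_zero _ hμ₁0)
  -- the eigenvalue on the second factor
  let a : Module.End W.K (Module.Dual W.K N) := Module.Dual.transpose (R := W.K) (σ G)
  let bb : Module.End W.K (W.H X.X) := κ • (X.act G⁻¹).toLinearMap
  have hab : ∀ φ, Ψ (a φ) = bb (Ψ φ) := by
    intro φ
    have h4 := hΨg G hGΔ φ
    have h5 := congrArg (X.act G⁻¹) h4
    rw [hinv', map_smul] at h5
    exact h5.symm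
  have hbx : bb (Ψ φ₀) = (κ / (μ₁ ^ s) ^ t) • Ψ φ₀ := by
    have h4 := congrArg (X.act G⁻¹) hGx
    rw [hinv', map_smul] at h4
    change κ • X.act G⁻¹ (Ψ φ₀) = _
    rw [div_eq_mul_inv, mul_smul]
    congr 1
    rw [eq_inv_smul_iff₀ hM0]
    exact h4.symm
  have h4 := eig_of_surj Ψ hab hx0 hbx
  obtain ⟨φ, hφ, hφ0⟩ := h4.exists_hasEigenvector
  have h5 : Module.End.HasEigenvalue (σ G : Module.End W.K N) (κ / (μ₁ ^ s) ^ t) := by
    refine eig_of_dual hφ0 fun y => ?_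
    have h6 := LinearMap.congr_fun (Module.End.mem_eigenspace_iff.1 hφ) y
    exact h6
  have h6 : (σ F : Module.End W.K N) ^ (s * t) = σ G := by
    rw [hGdef, map_pow]
  rw [← h6] at h5
  obtain ⟨ν, hν, hνG⟩ := eig_pow hst h5
  obtain ⟨D, hD⟩ := hno μ₁ ν j ⟨x₁, x₁.2, fun h => hx₁0 (Subtype.ext h), hx₁'⟩ hν
    (RootEq.of_pow hst (by
      rw [mul_pow, hνG, pow_mul μ₁, mul_div_cancel₀ _ hM0, hκ, hGdef, map_pow,
        Units.val_pow_eq_pow_val, ← pow_mul, ← pow_mul, mul_comm]))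
  exact hμ D (hD.pow s)

end

end Pool.Agent.N179.FO
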