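import Pool.Agent.N179.FO.Lin
import Pool.Agent.N179.FG.Tat

/-!
# Coordinates of classes on the product with an arbitrary variety
-/

set_option autoImplicit false
set_option linter.unusedSectionVars false

open CategoryTheory AlgebraicGeometry
open scoped TensorProduct

universe u v w

namespace Pool.Agent.N179.FO

open Pool.Agent.H914 Pool.Agent.H914.VarClass Pool.Agent.H914.VarClass.Obj
  Pool.Agent.H914.WeilCohomology Pool.Agent.H281R3.HT Pool.Agent.TH125.Gal Pool.Agent.N179.TL
  Pool.Agent.N179.FG Pool.Agent.W552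

variable {k : Type u} [Field k] {𝒱 : VarClass k} {ops : CycleOps 𝒱}
  {W : WeilCohomology.{u, v} ops}

section

variable {X Y : 𝒱.Obj} {M : Type v} [AddCommGroup M] [Module W.K M]

theorem lin_ext {P : Type*} [AddCommGroup P] [Module W.K P]
    {L L' : W.H (X.prod Y) ⊗[W.K] M →ₗ[W.K] P}
    (h : ∀ a y m, L ((W.map (fst X Y) a * W.map (snd X Y) y) ⊗ₜ m) =
      L' ((W.map (fst X Y) a * W.map (snd X Y) y) ⊗ₜ m)) : L = L' := by
  refine TensorProduct.ext' fun z m => ?_
  exact kun_ext (L := fun z => L (z ⊗ₜ m)) (L' := fun z => L' (z ⊗ₜ m))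
    (fun a b => by rw [TensorProduct.add_tmul, map_add])
    (fun a b => by rw [TensorProduct.add_tmul, map_add]) (fun a y => h a y m) z

/-- the isomorphism `H(X × Y) ⊗ M = H(X) ⊗ (H(Y) ⊗ M)` -/
noncomputable def theta (W : WeilCohomology.{u, v} ops) (X Y : 𝒱.Obj) (M : Type v)
    [AddCommGroup M] [Module W.K M] :
    W.H (X.prod Y) ⊗[W.K] M →ₗ[W.K] W.H X ⊗[W.K] (W.H Y ⊗[W.K] M) :=
  (TensorProduct.assoc W.K (W.H X) (W.H Y) M).toLinearMap ∘ₗ
    ((kEquiv W X Y).symm.toLinearMap.rTensor M)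

theorem theta_tmul (a : W.H X) (y : W.H Y) (m : M) :
    theta W X Y M ((W.map (fst X Y) a * W.map (snd X Y) y) ⊗ₜ m) = a ⊗ₜ (y ⊗ₜ m) := by
  unfold theta
  rw [LinearMap.comp_apply, LinearMap.rTensor_tmul]
  change TensorProduct.assoc W.K (W.H X) (W.H Y) M ((kEquiv W X Y).symm _ ⊗ₜ m) = _
  rw [kEquiv_symm, TensorProduct.assoc_tmul]

/-- the coordinates -/
noncomputable def KM (s : SB W X) (Y : 𝒱.Obj) (M : Type v) [AddCommGroup M] [Module W.K M]
    (r : Fin s.NC ⊕ Fin s.NT) : W.H (X.prod Y) ⊗[W.K] M →ₗ[W.K] W.H Y ⊗[W.K] M :=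
  (ctr (Z := Y) (s.e.coord r)).rTensor M

theorem KM_tmul (s : SB W X) (r : Fin s.NC ⊕ Fin s.NT) (a : W.H X) (y : W.H Y) (m : M) :
    KM s Y M r ((W.map (fst X Y) a * W.map (snd X Y) y) ⊗ₜ m) =
      s.e.coord r a • (y ⊗ₜ[W.K] m) := by
  unfold KM
  rw [LinearMap.rTensor_tmul, ctr_apply, TensorProduct.smul_tmul']

theorem expandM (s : SB W X) (c : W.H (X.prod Y) ⊗[W.K] M) :
    c = ∑ r, (LinearMap.mulLeft W.K (W.map (fst X Y) (s.e r))).rTensor M
      ((W.map (snd X Y)).toLinearMap.rTensor M (KM s Y M r c)) := by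
  induction c using TensorProduct.induction_on with
  | zero => simp
  | tmul z m =>
    have h1 := expand s.e z
    conv_lhs => rw [h1, TensorProduct.sum_tmul]
    refine Finset.sum_congr rfl fun r _ => ?_
    unfold KM
    rw [LinearMap.rTensor_tmul, LinearMap.rTensor_tmul, LinearMap.rTensor_tmul]
    rfl
  | add x y hx hy =>
    conv_lhs => rw [hx, hy, ← Finset.sum_add_distrib]
    refine Finset.sum_congr rfl fun r _ => ?_
    rw [map_add, map_add, map_add]

theorem dual_KM (s : SB W X) (r : Fin s.NC ⊕ Fin s.NT) (ψ : Module.Dual W.K (W.H Y ⊗[W.K] M))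
    (c : W.H (X.prod Y) ⊗[W.K] M) :
    ψ (KM s Y M r c) = s.e.coord r (ctrN ψ (theta W X Y M c)) := by
  have h1 : ψ ∘ₗ KM s Y M r = (s.e.coord r ∘ₗ ctrN ψ) ∘ₗ theta W X Y M := by
    refine lin_ext fun a y m => ?_
    rw [LinearMap.comp_apply, KM_tmul, LinearMap.comp_apply, LinearMap.comp_apply, theta_tmul,
      ctrN_tmul, map_smul, map_smul, smul_eq_mul, smul_eq_mul, mul_comm]
  exact LinearMap.congr_fun h1 c

theorem coord_bil (s : SB W X) (l : Fin s.NC) (x : W.H X) :
    s.e.coord (Sum.inl l) x = bil W X (s.uC l) x := by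
  have h1 : s.e.coord (Sum.inl l) = bil W X (s.uC l) := by
    refine s.e.ext fun r => ?_
    rw [Module.Basis.coord_apply, Module.Basis.repr_self, Finsupp.single_apply]
    have h2 := s.es_e (Sum.inl l) r
    exact h2.symm
  rw [h1]

theorem span_proj {x : W.H X} (hx : x ∈ algSpan W X) (i : ℕ) :
    H914.proj (W.isInternal X) i x ∈ algSpan W X := by
  induction hx using Submodule.span_induction with
  | mem x hx =>
    obtain ⟨j, hj⟩ := Set.mem_iUnion.1 hx
    by_cases hij : 2 * j = i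
    · subst hij
      rw [H914.proj_same _ (alg_gr hj)]
      exact alg_mem hj
    · rw [H914.proj_ne _ (alg_gr hj) hij]
      exact Submodule.zero_mem _
  | zero => rw [map_zero]; exact Submodule.zero_mem _
  | add x y _ _ hx hy => rw [map_add]; exact Submodule.add_mem _ hx hy
  | smul q x _ hx => rw [map_smul]; exact Submodule.smul_mem _ _ hx

/-- the trace of a product with a homogeneous component -/
theorem tr_proj_mul {i : ℕ} {b : W.H X} (hb : b ∈ W.gr X i) (hi : i ≤ 2 * X.dim) (a : W.H X) :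
    W.tr X (H914.proj (W.isInternal X) (2 * X.dim - i) a * b) = W.tr X (a * b) := by
  refine gr_induction (W.isInternal X) (p := fun a => W.tr X (H914.proj (W.isInternal X)
    (2 * X.dim - i) a * b) = W.tr X (a * b)) ?_ ?_ a
  · intro l a ha
    by_cases hl : l = 2 * X.dim - i
    · subst hl
      rw [H914.proj_same _ ha]
    · rw [H914.proj_ne _ ha hl, zero_mul, map_zero, W.tr_eq_zero (W.mul_mem ha hb) (by omega)]
  · intro a a' ha ha'
    rw [map_add, add_mul, map_add, ha, ha', add_mul, map_add]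

theorem uC_gr (s : SB W X) (l : Fin s.NC) :
    (s.uC l : W.H X) ∈ W.gr X (2 * (X.dim - s.jC l)) := by
  have hjl := jC_le s l
  have h1 : H914.proj (W.isInternal X) (2 * (X.dim - s.jC l)) (s.uC l : W.H X) = s.uC l := by
    apply s.ext_e
    intro r
    rcases r with i | i
    · rw [s.e_inl, s.uC_bC]
      have hji := jC_le s i
      by_cases hij : s.jC i = s.jC l
      · rw [bil_apply, show 2 * (X.dim - s.jC l) = 2 * X.dim - 2 * s.jC i by omega,
          tr_proj_mul (alg_gr (s.alg i)) (by omega), ← bil_apply, s.uC_bC]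
      · rw [if_neg (fun h => hij (by rw [h])), bil_apply]
        exact W.tr_eq_zero (W.mul_mem (H914.proj_mem _ _ _) (alg_gr (s.alg i))) (by omega)
    · rw [s.e_inr, alg_trans (s.bT i).2 (span_proj (s.uC l).2 _),
        alg_trans (s.bT i).2 (s.uC l).2]
  rw [← h1]
  exact H914.proj_mem _ _ _

theorem coord_gr (s : SB W X) (l : Fin s.NC) {i : ℕ} (hi : i ≠ 2 * s.jC l) {x : W.H X}
    (hx : x ∈ W.gr X i) : s.e.coord (Sum.inl l) x = 0 := by
  have hjl := jC_le s l
  rw [coord_bil, bil_apply]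
  exact W.tr_eq_zero (W.mul_mem (uC_gr s l) hx) (by omega)

/-- the degrees of the coordinates -/
theorem ctr_gr (s : SB W X) (l : Fin s.NC) {a : ℕ} {z : W.H (X.prod Y)}
    (hz : z ∈ W.gr (X.prod Y) a) :
    ctr (Z := Y) (s.e.coord (Sum.inl l)) z ∈
      (if 2 * s.jC l ≤ a then W.gr Y (a - 2 * s.jC l) else ⊥ : Submodule W.K (W.H Y)) := by
  have key : ∀ z : W.H (X.prod Y), ctr (Z := Y) (s.e.coord (Sum.inl l))
      (H914.proj (W.isInternal (X.prod Y)) a z) ∈
      (if 2 * s.jC l ≤ a then W.gr Y (a - 2 * s.jC l) else ⊥ : Submodule W.K (W.H Y)) := by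
    intro z
    refine W.kunneth_induction (p := fun z => ctr (Z := Y) (s.e.coord (Sum.inl l))
      (H914.proj (W.isInternal (X.prod Y)) a z) ∈
      (if 2 * s.jC l ≤ a then W.gr Y (a - 2 * s.jC l) else ⊥ : Submodule W.K (W.H Y))) ?_ ?_ z
    · intro x y hx hy
      rw [map_add, map_add]
      exact Submodule.add_mem _ hx hy
    · intro i j x hx y hy
      have h1 : W.map (fst X Y) x * W.map (snd X Y) y ∈ W.gr (X.prod Y) (i + j) :=
        W.mul_mem (W.map_mem _ hx) (W.map_mem _ hy)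
      by_cases hij : i + j = a
      · subst hij
        rw [H914.proj_same _ h1, ctr_apply]
        by_cases hi : i = 2 * s.jC l
        · subst hi
          rw [if_pos (Nat.le_add_right _ _), Nat.add_sub_cancel_left]
          exact Submodule.smul_mem _ _ hy
        · rw [coord_gr s l hi hx, zero_smul]
          exact Submodule.zero_mem _
      · rw [H914.proj_ne _ h1 hij, map_zero]
        exact Submodule.zero_mem _
  have h2 := key z
  rwa [H914.proj_same _ hz] at h2

theorem KM_deg (s : SB W X) (l : Fin s.NC) {grM : ℕ → Submodule W.K M} {N : ℕ}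
    {c : W.H (X.prod Y) ⊗[W.K] M} (hc : c ∈ tensDeg (W.gr (X.prod Y)) grM N) :
    KM s Y M (Sum.inl l) c ∈ (if 2 * s.jC l ≤ N then tensDeg (W.gr Y) grM (N - 2 * s.jC l)
      else ⊥ : Submodule W.K (W.H Y ⊗[W.K] M)) := by
  induction hc using Submodule.span_induction with
  | mem c hc =>
    obtain ⟨a, b, hab, z, hz, m, hm, rfl⟩ := hc
    have h1 := ctr_gr s l hz
    unfold KM
    rw [LinearMap.rTensor_tmul]
    by_cases ha : 2 * s.jC l ≤ a
    · rw [if_pos ha] at h1
      rw [if_pos (by omega)]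
      exact Submodule.subset_span ⟨a - 2 * s.jC l, b, by omega, _, h1, m, hm, rfl⟩
    · rw [if_neg ha] at h1
      rw [(Submodule.mem_bot _).1 h1, TensorProduct.zero_tmul]
      exact Submodule.zero_mem _
  | zero => rw [map_zero]; exact Submodule.zero_mem _
  | add x y _ _ hx hy => rw [map_add]; exact Submodule.add_mem _ hx hy
  | smul q x _ hx => rw [map_smul]; exact Submodule.smul_mem _ _ hx

theorem ctr_push (s : SB W X) (l : Fin s.NC) (z : W.H (X.prod Y)) :
    ctr (Z := Y) (s.e.coord (Sum.inl l)) z =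
      W.push (snd X Y) (W.map (fst X Y) (s.uC l : W.H X) * z) := by
  refine kun_ext (L := fun z => ctr (Z := Y) (s.e.coord (Sum.inl l)) z)
    (L' := fun z => W.push (snd X Y) (W.map (fst X Y) (s.uC l : W.H X) * z))
    (fun a b => map_add _ _ _) (fun a b => by rw [mul_add, map_add]) (fun a y => ?_) z
  rw [ctr_apply, ← mul_assoc, ← map_mul, W.push_snd, coord_bil, bil_apply]

end

section

variable {Γ : Type w} [Group Γ] {χ : Γ →* W.Kˣ} {X Y : GVar W Γ} {U : AnyVar W Γ}
  {υ : Γ →* (W.H (X.X.prod Y.X) ≃ₐ[W.K] W.H (X.X.prod Y.X))}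

theorem mul_span {V : 𝒱.Obj} {i j : ℕ} {a : W.H V}
    (ha : a ∈ Submodule.span W.K (algClasses W V i)) {c : W.H V ⊗[W.K] U.M}
    (hc : c ∈ U.cyc V j) : (LinearMap.mulLeft W.K a).rTensor U.M c ∈ U.cyc V (i + j) := by
  induction ha using Submodule.span_induction with
  | mem a ha => exact U.mul V i j a ha c hc
  | zero =>
    have h1 : LinearMap.mulLeft W.K (0 : W.H V) = 0 := by
      apply LinearMap.ext
      intro x
      simp
    rw [h1, LinearMap.rTensor_zero]
    exact Submodule.zero_mem _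
  | add x y _ _ hx hy =>
    have h1 : LinearMap.mulLeft W.K (x + y) = LinearMap.mulLeft W.K x + LinearMap.mulLeft W.K y := by
      apply LinearMap.ext
      intro z
      simp [add_mul]
    rw [h1, LinearMap.rTensor_add]
    exact Submodule.add_mem _ hx hy
  | smul q x _ hx =>
    have h1 : LinearMap.mulLeft W.K (q • x) = q • LinearMap.mulLeft W.K x := by
      apply LinearMap.ext
      intro z
      simp
    rw [h1, LinearMap.rTensor_smul]
    exact Submodule.smul_mem _ _ hx

theorem map_span {V V' : 𝒱.Obj} (f : V ⟶ V') {i : ℕ} {a : W.H V'}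
    (ha : a ∈ Submodule.span W.K (algClasses W V' i)) :
    W.map f a ∈ Submodule.span W.K (algClasses W V i) := by
  induction ha using Submodule.span_induction with
  | mem a ha => exact Submodule.subset_span (alg_map f ha)
  | zero => rw [map_zero]; exact Submodule.zero_mem _
  | add x y _ _ hx hy => rw [map_add]; exact Submodule.add_mem _ hx hy
  | smul q x _ hx => rw [map_smul]; exact Submodule.smul_mem _ _ hx

/-- the coordinates of classes of cycles are classes of cycles -/
theorem KM_cyc (s : SB W X.X) (l : Fin s.NC) {j : ℕ} (hj : s.jC l ≤ j)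
    {c : W.H (X.X.prod Y.X) ⊗[W.K] U.M} (hc : c ∈ U.cyc (X.X.prod Y.X) j) :
    KM s Y.X U.M (Sum.inl l) c ∈ U.cyc Y.X (j - s.jC l) := by
  have hjl := jC_le s l
  have h1 : KM s Y.X U.M (Sum.inl l) c = (W.push (snd X.X Y.X)).rTensor U.M
      ((LinearMap.mulLeft W.K (W.map (fst X.X Y.X) (s.uC l : W.H X.X))).rTensor U.M c) := by
    unfold KM
    rw [← LinearMap.comp_apply, ← LinearMap.rTensor_comp]
    congr 2
    apply LinearMap.ext
    intro z
    exact ctr_push s l z
  rw [h1]
  apply U.push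
  have h2 := mul_span (U := U) (map_span (fst X.X Y.X)
    (Pool.Agent.TH125.Gal.algSpan_gr (s.uC l).2 (uC_gr s l))) hc
  rwa [show X.X.dim + (j - s.jC l) = X.X.dim - s.jC l + j by omega]

theorem KM_act (hG : IsGalois W χ X.X X.act) (h1 : Intertwines (W.map (fst X.X Y.X)) X.act υ)
    (h2 : Intertwines (W.map (snd X.X Y.X)) Y.act υ) (s : SB W X.X) (l : Fin s.NC) {g : Γ}
    (hg : ∀ i, X.act g (s.bC i) = (χ g : W.K) ^ s.jC i • (s.bC i : W.H X.X))
    (c : W.H (X.X.prod Y.X) ⊗[W.K] U.M) :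
    KM s Y.X U.M (Sum.inl l) (tact υ U.act g c) =
      (χ g : W.K) ^ s.jC l • tact Y.act U.act g (KM s Y.X U.M (Sum.inl l) c) := by
  have h3 : ∀ a, s.e.coord (Sum.inl l) (X.act g a) =
      (χ g : W.K) ^ s.jC l * s.e.coord (Sum.inl l) a := by
    intro a
    have h4 := bil_act hG g (s.uC l) a
    rw [uC_act hG s hg, map_smul, LinearMap.smul_apply, smul_eq_mul] at h4
    rw [coord_bil, coord_bil]
    have h5 : (χ g : W.K) ^ X.X.dim = (χ g : W.K) ^ (X.X.dim - s.jC l) * (χ g : W.K) ^ s.jC l := by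
      rw [← pow_add, Nat.sub_add_cancel (jC_le s l)]
    rw [h5, mul_assoc] at h4
    exact mul_left_cancel₀ (pow_ne_zero _ (Units.ne_zero _)) h4
  have h6 : KM s Y.X U.M (Sum.inl l) ∘ₗ tact υ U.act g =
      ((χ g : W.K) ^ s.jC l • tact Y.act U.act g) ∘ₗ KM s Y.X U.M (Sum.inl l) := by
    refine lin_ext fun a y m => ?_
    rw [LinearMap.comp_apply, LinearMap.comp_apply, KM_tmul]
    unfold tact
    rw [TensorProduct.map_tmul]
    change KM s Y.X U.M (Sum.inl l) (υ g (W.map (fst X.X Y.X) a * W.map (snd X.X Y.X) y) ⊗ₜ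
      U.act g m) = _
    rw [map_mul, h1 g, h2 g, KM_tmul, h3, map_smul, LinearMap.smul_apply,
      TensorProduct.map_tmul, smul_smul, mul_comm]
    rfl
  exact LinearMap.congr_fun h6 c

theorem theta_act (h1 : Intertwines (W.map (fst X.X Y.X)) X.act υ)
    (h2 : Intertwines (W.map (snd X.X Y.X)) Y.act υ) (g : Γ)
    (c : W.H (X.X.prod Y.X) ⊗[W.K] U.M) :
    theta W X.X Y.X U.M (tact υ U.act g c) =
      TensorProduct.map (X.act g).toLinearMap (tact Y.act U.act g) (theta W X.X Y.X U.M c) := by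
  have h6 : theta W X.X Y.X U.M ∘ₗ tact υ U.act g =
      TensorProduct.map (X.act g).toLinearMap (tact Y.act U.act g) ∘ₗ
        theta W X.X Y.X U.M := by
    refine lin_ext fun a y m => ?_
    rw [LinearMap.comp_apply, LinearMap.comp_apply, theta_tmul, TensorProduct.map_tmul]
    unfold tact
    rw [TensorProduct.map_tmul, TensorProduct.map_tmul]
    change theta W X.X Y.X U.M (υ g (W.map (fst X.X Y.X) a * W.map (snd X.X Y.X) y) ⊗ₜ
      U.act g m) = _
    rw [map_mul, h1 g, h2 g, theta_tmul]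
    rfl
  exact LinearMap.congr_fun h6 c

theorem KM_inr (hDX : HomEqNum W X.X) (s : SB W X.X) (i : Fin s.NT)
    {c : W.H (X.X.prod Y.X) ⊗[W.K] U.M}
    (hc : ∀ ψ : Module.Dual W.K (W.H Y.X ⊗[W.K] U.M),
      pT hDX (ctrN ψ (theta W X.X Y.X U.M c)) = 0) : KM s Y.X U.M (Sum.inr i) c = 0 := by
  refine (Module.forall_dual_apply_eq_zero_iff W.K _).1 fun ψ => ?_
  rw [dual_KM, coord_inr s ((pT_eq_zero hDX).1 (hc ψ))]

end

end Pool.Agent.N179.FO
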